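import Mathlib

/-!
Implication-form ISS Lyapunov function that is not a dissipative-form one, on `ℓ²(ℕ, ℂ)`.
-/

namespace Pool.Agent.Results.MP_cf29c0_an.RotationExample

open Filter Topology Set MeasureTheory
open scoped NNReal

noncomputable section

/-- Class `PD`. -/
def IsPD (γ : ℝ≥0 → ℝ≥0) : Prop := Continuous γ ∧ γ 0 = 0 ∧ ∀ r, 0 < r → 0 < γ r

/-- Class `K`. -/
def IsK (γ : ℝ≥0 → ℝ≥0) : Prop := IsPD γ ∧ StrictMono γ

/-- Class `K_∞`. -/
def IsKInf (γ : ℝ≥0 → ℝ≥0) : Prop := IsK γ ∧ ∀ M, ∃ r, M < γ r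

/-- A (forward complete) control system with state space `X` and input values in `U`. -/
structure ControlSystem (X : Type) [NormedAddCommGroup X] [NormedSpace ℝ X]
    (U : Type) [NormedAddCommGroup U] [NormedSpace ℝ U] where
  /-- the vector space of inputs -/
  inputs : Submodule ℝ (ℝ≥0 → U)
  /-- its norm -/
  nrm : inputs → ℝ≥0
  nrm_eq_zero : ∀ u, nrm u = 0 → u = 0
  nrm_add : ∀ u v, nrm (u + v) ≤ nrm u + nrm v
  nrm_smul : ∀ (c : ℝ) u, nrm (c • u) = ‖c‖₊ * nrm u
  /-- shifts of inputs are inputs -/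
  shift_mem : ∀ u ∈ inputs, ∀ τ : ℝ≥0, (fun s => u (s + τ)) ∈ inputs
  shift_le : ∀ (u : inputs) (τ : ℝ≥0), nrm ⟨fun s => u.1 (s + τ), shift_mem u.1 u.2 τ⟩ ≤ nrm u
  /-- concatenations of inputs are inputs -/
  concat_mem : ∀ u ∈ inputs, ∀ v ∈ inputs, ∀ t : ℝ≥0, 0 < t →
    (fun s => if s ≤ t then u s else v (s - t)) ∈ inputs
  /-- the flow -/
  φ : ℝ≥0 → X → inputs → X
  φ_zero : ∀ x u, φ 0 x u = x
  causal : ∀ (t : ℝ≥0) x (u v : inputs), (∀ s, s ≤ t → u.1 s = v.1 s) → φ t x u = φ t x v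
  cont : ∀ x u, Continuous (fun t => φ t x u)
  cocycle : ∀ (t h : ℝ≥0) x (u : inputs),
    φ h (φ t x u) ⟨fun s => u.1 (t + s), by
      simpa only [add_comm] using shift_mem u.1 u.2 t⟩ = φ (t + h) x u

variable {X : Type} [NormedAddCommGroup X] [NormedSpace ℝ X]
  {U : Type} [NormedAddCommGroup U] [NormedSpace ℝ U]

/-- The upper right Dini derivative of `V` along the trajectory, in the extended reals. -/
def dini (S : ControlSystem X U) (V : X → ℝ≥0) (u : S.inputs) (x : X) : EReal :=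
  limsup (fun t : ℝ≥0 => ((((V (S.φ t x u) : ℝ) - V x) / t : ℝ) : EReal)) (𝓝[>] 0)

/-- ISS Lyapunov function in dissipative form. -/
def IsDissipative (S : ControlSystem X U) (V : X → ℝ≥0) : Prop :=
  Continuous V ∧ ∃ ψ₁ ψ₂ α σ : ℝ≥0 → ℝ≥0, IsKInf ψ₁ ∧ IsKInf ψ₂ ∧ IsKInf α ∧ IsK σ ∧
    (∀ x, ψ₁ ‖x‖₊ ≤ V x ∧ V x ≤ ψ₂ ‖x‖₊) ∧
    ∀ x u, dini S V u x ≤ ((-(α ‖x‖₊ : ℝ) + σ (S.nrm u) : ℝ) : EReal)

/-- ISS Lyapunov function in implication form. -/
def IsImplication (S : ControlSystem X U) (V : X → ℝ≥0) : Prop :=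
  Continuous V ∧ ∃ ψ₁ ψ₂ χ α : ℝ≥0 → ℝ≥0, IsKInf ψ₁ ∧ IsKInf ψ₂ ∧ IsKInf χ ∧ IsPD α ∧
    (∀ x, ψ₁ ‖x‖₊ ≤ V x ∧ V x ≤ ψ₂ ‖x‖₊) ∧
    ∀ x u, χ (S.nrm u) ≤ ‖x‖₊ → dini S V u x ≤ ((-(α ‖x‖₊ : ℝ) : ℝ) : EReal)

/-! ### The example -/

/-- The state space `ℓ²(ℕ, ℂ)`. -/
abbrev L2 : Type := lp (fun _ : ℕ => ℂ) 2

lemma norm_rot (k : ℕ) (p : ℝ) : ‖Complex.exp ((k * p : ℝ) * Complex.I)‖ = 1 :=
  Complex.norm_exp_ofReal_mul_I _

lemma rot_mem (p : ℝ) (x : L2) :
    Memℓp (fun k : ℕ => Complex.exp ((k * p : ℝ) * Complex.I) * x k) 2 := by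
  have h := lp.memℓp x
  rw [memℓp_gen_iff (by norm_num)] at h ⊢
  refine h.congr fun k => ?_
  rw [norm_mul, norm_rot, one_mul]

/-- rotation of the `k`-th coordinate by the angle `k p`. -/
def rot (p : ℝ) (x : L2) : L2 := ⟨fun k => Complex.exp ((k * p : ℝ) * Complex.I) * x k, rot_mem p x⟩

lemma rot_apply (p : ℝ) (x : L2) (k : ℕ) :
    rot p x k = Complex.exp ((k * p : ℝ) * Complex.I) * x k := rfl

lemma norm_rot_eq (p : ℝ) (x : L2) : ‖rot p x‖ = ‖x‖ := by
  rw [lp.norm_eq_tsum_rpow (by norm_num), lp.norm_eq_tsum_rpow (by norm_num)]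
  simp only [rot_apply, norm_mul, norm_rot, one_mul]

lemma rot_zero (x : L2) : rot 0 x = x := by
  ext k; simp [rot_apply]

lemma rot_rot (p q : ℝ) (x : L2) : rot p (rot q x) = rot (q + p) x := by
  ext k
  simp only [rot_apply]
  rw [← mul_assoc, ← Complex.exp_add]
  congr 2
  push_cast; ring

lemma rot_smul (p : ℝ) (c : ℝ) (x : L2) : rot p (c • x) = c • rot p x := by
  ext k
  simp only [rot_apply, lp.coeFn_smul, Pi.smul_apply, Complex.real_smul]
  ring

lemma continuous_rot (x : L2) : Continuous (fun p => rot p x) := by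
  rw [continuous_iff_continuousAt]
  intro q
  have h := lp.memℓp x
  rw [memℓp_gen_iff (by norm_num)] at h
  have e2 : (2 : ENNReal).toReal = 2 := by norm_num
  rw [e2] at h
  have hc : Continuous (fun p : ℝ => ∑' k : ℕ, ‖(rot p x - rot q x) k‖ ^ (2 : ℝ)) := by
    refine continuous_tsum (u := fun k => 4 * ‖x k‖ ^ (2 : ℝ)) ?_ (h.mul_left 4) ?_
    · intro k
      simp only [lp.coeFn_sub, Pi.sub_apply, rot_apply]
      have : Continuous fun p : ℝ => ‖Complex.exp ((k * p : ℝ) * Complex.I) * x k -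
        Complex.exp ((k * q : ℝ) * Complex.I) * x k‖ := by fun_prop
      exact this.rpow_const (fun _ => Or.inr (by norm_num))
    · intro k p
      rw [Real.norm_of_nonneg (by positivity)]
      simp only [lp.coeFn_sub, Pi.sub_apply, rot_apply]
      have h1 : ‖Complex.exp ((k * p : ℝ) * Complex.I) * x k -
        Complex.exp ((k * q : ℝ) * Complex.I) * x k‖ ≤ 2 * ‖x k‖ := by
        refine (norm_sub_le _ _).trans ?_
        rw [norm_mul, norm_mul, norm_rot, norm_rot]; linarith
      calc _ ≤ (2 * ‖x k‖) ^ (2 : ℝ) := by gcongr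
        _ = 4 * ‖x k‖ ^ (2 : ℝ) := by
          rw [Real.mul_rpow (by norm_num) (norm_nonneg _)]; norm_num
  have h2 : Continuous (fun p : ℝ => ‖rot p x - rot q x‖) := by
    have : (fun p : ℝ => ‖rot p x - rot q x‖) =
        fun p : ℝ => (∑' k : ℕ, ‖(rot p x - rot q x) k‖ ^ (2 : ℝ)) ^ (1 / (2 : ℝ)) := by
      funext p
      rw [lp.norm_eq_tsum_rpow (by norm_num), e2]
    rw [this]
    exact hc.rpow_const (fun _ => Or.inr (by norm_num))
  have h3 := h2.tendsto q
  simp only [sub_self, norm_zero] at h3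
  rw [ContinuousAt, tendsto_iff_norm_sub_tendsto_zero]
  exact h3

/-- Bounded measurable real inputs. -/
def inp : Submodule ℝ (ℝ≥0 → ℝ) where
  carrier := {u | Measurable u ∧ ∃ C, ∀ s, |u s| ≤ C}
  add_mem' := by
    rintro u v ⟨hu, C, hC⟩ ⟨hv, D, hD⟩
    exact ⟨hu.add hv, C + D, fun s => (abs_add_le _ _).trans (add_le_add (hC s) (hD s))⟩
  zero_mem' := ⟨measurable_const, 0, fun s => by simp⟩
  smul_mem' := by
    rintro c u ⟨hu, C, hC⟩
    refine ⟨hu.const_smul c, |c| * C, fun s => ?_⟩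
    simp only [Pi.smul_apply, smul_eq_mul, abs_mul]
    exact mul_le_mul_of_nonneg_left (hC s) (abs_nonneg c)

/-- the sup norm. -/
def supn (u : inp) : ℝ≥0 := ⨆ s, ‖u.1 s‖₊

lemma bdd (u : inp) : BddAbove (range fun s => ‖u.1 s‖₊) := by
  obtain ⟨C, hC⟩ := u.2.2
  refine ⟨C.toNNReal, ?_⟩
  rintro _ ⟨s, rfl⟩
  rw [← NNReal.coe_le_coe]
  simp only [coe_nnnorm, Real.norm_eq_abs]
  exact (hC s).trans (Real.le_coe_toNNReal C)

lemma le_supn (u : inp) (s : ℝ≥0) : ‖u.1 s‖₊ ≤ supn u := le_ciSup (bdd u) s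

lemma abs_le_supn (u : inp) (s : ℝ≥0) : |u.1 s| ≤ supn u := by
  have := le_supn u s
  rw [← NNReal.coe_le_coe] at this
  simpa using this

/-- the phase rate. -/
def rate (r : ℝ) (u : ℝ≥0 → ℝ) (s : ℝ) : ℝ := max (|u s.toNNReal| - Real.exp (-s) * r) 0

/-- the phase. -/
def phase (r : ℝ) (u : ℝ≥0 → ℝ) (t : ℝ) : ℝ := ∫ s in (0 : ℝ)..t, rate r u s

lemma rate_intble (r : ℝ) (u : inp) (a b : ℝ) : IntervalIntegrable (rate r u.1) volume a b := by
  obtain ⟨hm, C, hC⟩ := u.2
  have h1 : IntervalIntegrable (fun s : ℝ => |u.1 s.toNNReal|) volume a b := by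
    have hm' : Measurable (fun s : ℝ => |u.1 s.toNNReal|) :=
      (hm.comp measurable_real_toNNReal).abs
    have hc : IntervalIntegrable (fun _ : ℝ => C) volume a b := intervalIntegrable_const
    refine hc.mono_fun hm'.aestronglyMeasurable ?_
    filter_upwards with s
    rw [Real.norm_eq_abs, abs_abs, Real.norm_eq_abs]
    exact (hC _).trans (le_abs_self C)
  have h2 : IntervalIntegrable (fun s : ℝ => Real.exp (-s) * r) volume a b :=
    (by fun_prop : Continuous fun s : ℝ => Real.exp (-s) * r).intervalIntegrable _ _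
  have h3 := h1.sub h2
  have h4 : Measurable (rate r u.1) := by
    unfold rate
    exact (((hm.comp measurable_real_toNNReal).abs).sub (by fun_prop)).max measurable_const
  refine h3.mono_fun h4.aestronglyMeasurable ?_
  filter_upwards with s
  simp only [rate]
  rw [Real.norm_eq_abs, Real.norm_eq_abs, abs_of_nonneg (le_max_right _ _)]
  exact max_le (le_abs_self _) (abs_nonneg _)

lemma continuous_phase (r : ℝ) (u : inp) : Continuous (phase r u.1) :=
  intervalIntegral.continuous_primitive (fun a b => rate_intble r u a b) 0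

/-- The example system. -/
def flow (t : ℝ≥0) (x : L2) (u : inp) : L2 :=
  Real.exp (-(t : ℝ)) • rot (phase ‖x‖ u.1 t) x

lemma norm_flow (t : ℝ≥0) (x : L2) (u : inp) : ‖flow t x u‖ = Real.exp (-(t : ℝ)) * ‖x‖ := by
  rw [flow, norm_smul, norm_rot_eq, Real.norm_of_nonneg (Real.exp_pos _).le]

lemma shift_mem' (u : ℝ≥0 → ℝ) (hu : u ∈ inp) (τ : ℝ≥0) : (fun s => u (s + τ)) ∈ inp := by
  obtain ⟨hm, C, hC⟩ := hu
  exact ⟨hm.comp (measurable_id.add_const τ), C, fun s => hC _⟩

lemma phase_add (r : ℝ) (u : inp) (t h : ℝ≥0) :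
    phase r u.1 (t + h : ℝ≥0) =
      phase r u.1 t + phase (Real.exp (-(t : ℝ)) * r) (fun s => u.1 (t + s)) h := by
  have h1 : phase (Real.exp (-(t : ℝ)) * r) (fun s => u.1 (t + s)) h =
      ∫ s in (0 : ℝ)..h, rate r u.1 (t + s) := by
    rw [phase]
    apply intervalIntegral.integral_congr
    intro s hs
    rw [uIcc_of_le h.coe_nonneg] at hs
    simp only [rate]
    have e1 : (t + s.toNNReal) = ((t : ℝ) + s).toNNReal := by
      rw [Real.toNNReal_add t.coe_nonneg hs.1, Real.toNNReal_coe]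
    rw [e1, neg_add, Real.exp_add]
    congr 2
    ring
  rw [h1, intervalIntegral.integral_comp_add_left (fun s => rate r u.1 s) (t : ℝ), phase, phase,
    add_zero, NNReal.coe_add]
  exact (intervalIntegral.integral_add_adjacent_intervals (rate_intble r u _ _)
    (rate_intble r u _ _)).symm

/-- The control system. -/
def sys : ControlSystem L2 ℝ where
  inputs := inp
  nrm := supn
  nrm_eq_zero := by
    intro u hu
    ext s
    have := le_supn u s
    rw [hu] at this
    simpa using this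
  nrm_add := by
    intro u v
    refine ciSup_le fun s => ?_
    exact (nnnorm_add_le _ _).trans (add_le_add (le_supn u s) (le_supn v s))
  nrm_smul := by
    intro c u
    simp only [supn, NNReal.mul_iSup]
    congr 1
    funext s
    exact nnnorm_smul c (u.1 s)
  shift_mem := shift_mem'
  shift_le := by
    intro u τ
    exact ciSup_le fun s => le_supn u (s + τ)
  concat_mem := by
    rintro u ⟨hu, C, hC⟩ v ⟨hv, D, hD⟩ t _
    refine ⟨Measurable.ite measurableSet_Iic hu (hv.comp (measurable_id.sub_const t)),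
      max C D, fun s => ?_⟩
    dsimp only
    split_ifs
    · exact (hC s).trans (le_max_left _ _)
    · exact (hD _).trans (le_max_right _ _)
  φ := flow
  φ_zero := by
    intro x u
    simp [flow, phase, rot_zero]
  causal := by
    intro t x u v huv
    have : phase ‖x‖ u.1 t = phase ‖x‖ v.1 t := by
      apply intervalIntegral.integral_congr
      intro s hs
      rw [uIcc_of_le t.coe_nonneg] at hs
      simp only [rate]
      rw [huv s.toNNReal (Real.toNNReal_le_iff_le_coe.mpr hs.2)]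
    rw [flow, flow, this]
  cont := by
    intro x u
    unfold flow
    refine Continuous.smul (Real.continuous_exp.comp NNReal.continuous_coe.neg) ?_
    exact (continuous_rot x).comp ((continuous_phase _ u).comp NNReal.continuous_coe)
  cocycle := by
    intro t h x u
    have hn : ‖flow t x u‖ = Real.exp (-(t : ℝ)) * ‖x‖ := norm_flow t x u
    rw [flow, hn]
    conv_lhs => rw [flow]
    rw [rot_smul, rot_rot, smul_smul, flow, phase_add ‖x‖ u t h, NNReal.coe_add]
    congr 1
    rw [← Real.exp_add]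
    congr 1; ring

/-- The Lyapunov function. -/
def V (x : L2) : ℝ≥0 := ‖x‖₊ + ‖x + star x‖₊

lemma V_coe (x : L2) : (V x : ℝ) = ‖x‖ + ‖x + star x‖ := rfl

lemma continuous_V : Continuous V := by
  unfold V
  fun_prop

lemma V_bounds (x : L2) : ‖x‖₊ ≤ V x ∧ V x ≤ 3 * ‖x‖₊ := by
  constructor
  · exact le_self_add
  · rw [← NNReal.coe_le_coe, V_coe]
    push_cast
    have := norm_add_le x (star x)
    rw [norm_star] at this
    linarith

lemma V_smul (c : ℝ) (hc : 0 ≤ c) (x : L2) : (V (c • x) : ℝ) = c * V x := by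
  rw [V_coe, V_coe, star_smul, star_trivial, ← smul_add, norm_smul, norm_smul,
    Real.norm_of_nonneg hc]
  ring

lemma isKInf_mul (c : ℝ≥0) (hc : 0 < c) : IsKInf (fun r => c * r) := by
  refine ⟨⟨⟨by fun_prop, by simp, fun r hr => by positivity⟩, ?_⟩, ?_⟩
  · intro a b hab
    exact mul_lt_mul_of_pos_left hab hc
  · intro M
    refine ⟨(M + 1) / c, ?_⟩
    have : c * ((M + 1) / c) = M + 1 := by field_simp
    simp only [this]
    exact lt_add_one M

lemma tendsto_exp_quot :
    Tendsto (fun t : ℝ≥0 => (Real.exp (-(t : ℝ)) - 1) / t) (𝓝[>] 0) (𝓝 (-1)) := by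
  have h : HasDerivAt (fun t : ℝ => Real.exp (-t)) (-1) 0 := by
    have := (hasDerivAt_neg (0 : ℝ)).exp
    simpa using this
  have h2 := h.tendsto_slope_zero_right
  simp only [zero_add, neg_zero, Real.exp_zero, smul_eq_mul] at h2
  have h3 : Tendsto (fun t : ℝ≥0 => (t : ℝ)) (𝓝[>] 0) (𝓝[>] 0) := by
    rw [tendsto_nhdsWithin_iff]
    refine ⟨(NNReal.continuous_coe.tendsto 0).mono_left nhdsWithin_le_nhds, ?_⟩
    filter_upwards [self_mem_nhdsWithin] with t ht
    exact_mod_cast ht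
  refine (h2.comp h3).congr fun t => ?_
  simp only [Function.comp]
  rw [div_eq_inv_mul]

theorem implication : IsImplication sys V := by
  refine ⟨continuous_V, fun r => 1 * r, fun r => 3 * r, fun r => 2 * r, fun r => 1 * r,
    isKInf_mul 1 one_pos, isKInf_mul 3 (by norm_num), isKInf_mul 2 (by norm_num),
    (isKInf_mul 1 one_pos).1.1, ?_, ?_⟩
  · intro x
    simpa using V_bounds x
  · intro x u hxu
    change 2 * supn u ≤ ‖x‖₊ at hxu
    have hxu' : 2 * (supn u : ℝ) ≤ ‖x‖ := by exact_mod_cast hxu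
    have hphase : ∀ t : ℝ≥0, (t : ℝ) ≤ Real.log 2 → phase ‖x‖ u.1 t = 0 := by
      intro t ht
      rw [phase]
      rw [intervalIntegral.integral_congr (g := fun _ => (0 : ℝ)), intervalIntegral.integral_zero]
      intro s hs
      rw [uIcc_of_le t.coe_nonneg] at hs
      simp only [rate]
      apply max_eq_right
      have h1 : (1 : ℝ) / 2 ≤ Real.exp (-s) := by
        rw [Real.exp_neg, ← one_div]
        apply one_div_le_one_div_of_le (Real.exp_pos _)
        rw [← Real.le_log_iff_exp_le (by norm_num)]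
        exact hs.2.trans ht
      have h2 := abs_le_supn u s.toNNReal
      nlinarith [norm_nonneg x]
    have hev : ∀ᶠ t : ℝ≥0 in 𝓝[>] 0, (((V (sys.φ t x u) : ℝ) - V x) / t : ℝ) =
        (Real.exp (-(t : ℝ)) - 1) / t * V x := by
      have hlt : (0 : ℝ≥0) < (Real.log 2).toNNReal := by
        rw [Real.toNNReal_pos]; exact Real.log_pos (by norm_num)
      filter_upwards [Ioo_mem_nhdsGT hlt] with t ht
      have ht' : (t : ℝ) ≤ Real.log 2 := by
        have := ht.2.le
        rw [Real.le_toNNReal_iff_coe_le (Real.log_nonneg (by norm_num))] at this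
        exact this
      change ((V (flow t x u) : ℝ) - V x) / t = _
      rw [flow, hphase t ht', rot_zero, V_smul _ (Real.exp_pos _).le]
      ring
    have hlim : Tendsto (fun t : ℝ≥0 => (((V (sys.φ t x u) : ℝ) - V x) / t : ℝ)) (𝓝[>] 0)
        (𝓝 (-1 * V x)) := by
      refine Tendsto.congr' (EventuallyEq.symm hev) ?_
      exact tendsto_exp_quot.mul_const _
    have hlim2 := (continuous_coe_real_ereal.tendsto _).comp hlim
    have : dini sys V u x = ((-1 * V x : ℝ) : EReal) := hlim2.limsup_eq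
    rw [this, EReal.coe_le_coe_iff]
    have h3 := (V_bounds x).1
    have h3' : ‖x‖ ≤ V x := by exact_mod_cast h3
    simp only [one_mul, coe_nnnorm]
    linarith

/-- the constant input `3`. -/
def u3 : inp := ⟨fun _ => 3, measurable_const, 3, fun _ => by norm_num⟩

lemma phase_u3 (t : ℝ) : phase 1 u3.1 t = 3 * t - (1 - Real.exp (-t)) ∨ t < 0 := by
  rcases lt_or_ge t 0 with h | h
  · exact Or.inr h
  left
  have h1 : phase 1 u3.1 t = ∫ s in (0 : ℝ)..t, (3 - Real.exp (-s)) := by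
    rw [phase]
    apply intervalIntegral.integral_congr
    intro s hs
    rw [uIcc_of_le h] at hs
    simp only [rate, u3, mul_one]
    rw [abs_of_pos (by norm_num)]
    apply max_eq_left
    have : Real.exp (-s) ≤ 1 := Real.exp_le_one_iff.mpr (by linarith [hs.1])
    linarith
  rw [h1]
  have hd : ∀ s : ℝ, HasDerivAt (fun s => 3 * s + Real.exp (-s)) (3 - Real.exp (-s)) s := by
    intro s
    refine (((hasDerivAt_id s).const_mul 3).add ((hasDerivAt_neg s).exp)).congr_deriv ?_
    ring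
  rw [intervalIntegral.integral_eq_sub_of_hasDerivAt (fun s _ => hd s)
    ((by fun_prop : Continuous fun s : ℝ => 3 - Real.exp (-s)).intervalIntegrable _ _)]
  simp
  ring

/-- the bad states. -/
def bad (k : ℕ) : L2 := lp.single 2 k (-Complex.I)

lemma norm_bad (k : ℕ) : ‖bad k‖ = 1 := by
  rw [bad, lp.norm_single (by norm_num)]
  simp

lemma rot_bad (k : ℕ) (p : ℝ) :
    rot p (bad k) = lp.single 2 k (Complex.exp ((k * p : ℝ) * Complex.I) * (-Complex.I)) := by
  ext j
  rw [rot_apply, bad]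
  by_cases h : j = k
  · subst h; simp
  · simp [h]

lemma V_rot_bad (k : ℕ) (p : ℝ) : (V (rot p (bad k)) : ℝ) = 1 + 2 * |Real.sin (k * p)| := by
  rw [V_coe, norm_rot_eq, norm_bad, rot_bad]
  congr 1
  set c : ℂ := Complex.exp ((k * p : ℝ) * Complex.I) * (-Complex.I) with hc
  have h1 : lp.single 2 k c + star (lp.single 2 k c) = (lp.single 2 k (c + star c) : L2) := by
    ext j
    by_cases h : j = k
    · subst h; simp
    · simp [h]
  have h2 : c + star c = ((2 * Real.sin (k * p) : ℝ) : ℂ) := by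
    rw [hc, Complex.exp_mul_I]
    rw [← Complex.ofReal_cos, ← Complex.ofReal_sin]
    generalize Real.sin (k * p) = S
    generalize Real.cos (k * p) = C
    apply Complex.ext
    · simp
      ring
    · simp
  rw [h1, lp.norm_single (by norm_num), h2, Complex.norm_real, Real.norm_eq_abs, abs_mul]
  norm_num

lemma dini_bad (k : ℕ) : dini sys V u3 (bad k) = ((4 * k - 1 : ℝ) : EReal) := by
  set g : ℝ → ℝ := fun t => Real.exp (-t) *
    (1 + 2 * Real.sin (k * (3 * t - (1 - Real.exp (-t))))) with hg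
  have hexp : HasDerivAt (fun t : ℝ => Real.exp (-t)) (-1) 0 := by
    have := (hasDerivAt_neg (0 : ℝ)).exp
    simpa using this
  have hP : HasDerivAt (fun t : ℝ => k * (3 * t - (1 - Real.exp (-t)))) (k * 2) 0 := by
    refine ((((hasDerivAt_id (0 : ℝ)).const_mul 3).sub
      ((hasDerivAt_const (0 : ℝ) (1 : ℝ)).sub hexp)).const_mul (k : ℝ)).congr_deriv ?_
    ring
  have hgd : HasDerivAt g (4 * k - 1) 0 := by
    refine (hexp.mul ((hP.sin.const_mul 2).const_add 1)).congr_deriv ?_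
    simp
    ring
  have h2 := hgd.tendsto_slope_zero_right
  have hg0 : g 0 = 1 := by simp [hg]
  simp only [zero_add, hg0, smul_eq_mul] at h2
  have h3 : Tendsto (fun t : ℝ≥0 => (t : ℝ)) (𝓝[>] 0) (𝓝[>] 0) := by
    rw [tendsto_nhdsWithin_iff]
    refine ⟨(NNReal.continuous_coe.tendsto 0).mono_left nhdsWithin_le_nhds, ?_⟩
    filter_upwards [self_mem_nhdsWithin] with t ht
    exact_mod_cast ht
  have h4 := h2.comp h3
  have hsmall : ∀ᶠ t : ℝ in 𝓝[>] 0, k * (3 * t - (1 - Real.exp (-t))) < Real.pi := by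
    have : Tendsto (fun t : ℝ => k * (3 * t - (1 - Real.exp (-t)))) (𝓝[>] 0) (𝓝 0) := by
      have h := hP.continuousAt.tendsto
      simp only [mul_zero, neg_zero, Real.exp_zero, sub_self] at h
      exact h.mono_left nhdsWithin_le_nhds
    exact this.eventually_lt_const Real.pi_pos
  have hsmall' := h3.eventually hsmall
  have hV0 : (V (bad k) : ℝ) = 1 := by
    have := V_rot_bad k 0
    rw [rot_zero] at this
    simpa using this
  have hev : ∀ᶠ t : ℝ≥0 in 𝓝[>] 0, (((V (sys.φ t (bad k) u3) : ℝ) - V (bad k)) / t : ℝ) =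
      (t : ℝ)⁻¹ * (g t - 1) := by
    filter_upwards [hsmall', self_mem_nhdsWithin] with t ht htpos
    have htpos' : (0 : ℝ) < t := by exact_mod_cast htpos
    have hph : phase 1 u3.1 t = 3 * t - (1 - Real.exp (-(t : ℝ))) := by
      rcases phase_u3 t with h | h
      · exact h
      · exact absurd h (not_lt.mpr htpos'.le)
    have hnn : 0 ≤ (k : ℝ) * (3 * t - (1 - Real.exp (-(t : ℝ)))) := by
      apply mul_nonneg (by positivity)
      have := Real.add_one_le_exp (-(t : ℝ))
      linarith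
    change ((V (flow t (bad k) u3) : ℝ) - V (bad k)) / t = _
    rw [flow, norm_bad, hph, V_smul _ (Real.exp_pos _).le, V_rot_bad, hV0,
      abs_of_nonneg (Real.sin_nonneg_of_nonneg_of_le_pi hnn ht.le), hg]
    ring
  have hlim : Tendsto (fun t : ℝ≥0 => (((V (sys.φ t (bad k) u3) : ℝ) - V (bad k)) / t : ℝ))
      (𝓝[>] 0) (𝓝 (4 * k - 1)) :=
    Tendsto.congr' (EventuallyEq.symm hev) h4
  exact ((continuous_coe_real_ereal.tendsto _).comp hlim).limsup_eq

theorem not_dissipative : ¬ IsDissipative sys V := by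
  rintro ⟨-, ψ₁, ψ₂, α, σ, -, -, -, -, -, h⟩
  obtain ⟨k, hk⟩ := exists_nat_gt (σ (sys.nrm u3) : ℝ)
  have h1 := h (bad k) u3
  rw [dini_bad, EReal.coe_le_coe_iff] at h1
  have h2 : (0 : ℝ) ≤ α ‖bad k‖₊ := NNReal.coe_nonneg _
  have h3 : (0 : ℝ) ≤ σ (sys.nrm u3) := NNReal.coe_nonneg _
  have h4 : (1 : ℝ) ≤ k := by
    have : 0 < k := by
      have : (0 : ℝ) < k := h3.trans_lt hk
      exact_mod_cast this
    exact_mod_cast this
  linarith

lemma infinite_dim : ¬ FiniteDimensional ℝ L2 := by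
  intro hfin
  have hli : LinearIndependent ℝ (fun k : ℕ => (lp.single 2 k (1 : ℂ) : L2)) := by
    rw [linearIndependent_iff']
    intro s c hc i hi
    have h1 : ((∑ k ∈ s, c k • (lp.single 2 k (1 : ℂ) : L2) : L2) : ℕ → ℂ) i = 0 := by
      rw [hc]; rfl
    rw [lp.coeFn_sum, Finset.sum_apply, Finset.sum_eq_single i] at h1
    · simpa using h1
    · intro j _ hj
      simp [Ne.symm hj]
    · intro hni; exact absurd hi hni
  exact Infinite.not_finite (hli.finite_of_isNoetherian)

/-- The negated form of Q1, with a (complete) infinite-dimensional state space. -/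
theorem result : ∃ (X : Type) (_ : NormedAddCommGroup X) (_ : NormedSpace ℝ X)
    (_ : CompleteSpace X) (S : ControlSystem X ℝ) (V : X → ℝ≥0),
    ¬ FiniteDimensional ℝ X ∧ IsImplication S V ∧ ¬ IsDissipative S V :=
  ⟨L2, inferInstance, inferInstance, inferInstance, sys, V, infinite_dim, implication,
    not_dissipative⟩

end

end Pool.Agent.Results.MP_cf29c0_an.RotationExample
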